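import Pool.Agent.Results.MP_fb225e_nt.DerivativesDensityAbelian
import Pool.Agent.Q9.RH.HtK

/-!
# The zeros of the heat flow of `Λ(E/K, s)`, `K` abelian of degree at most 5, are on the line and simple,
up to a small proportion

`E : y² = x³ + a x + b` is an elliptic curve over `ℚ` of conductor `N` and `K` an abelian number field of
degree at most five and conductor prime to `N`, given by its group `G` of Dirichlet characters;
`Λ(s) = Λ(E/K, s)` is the completed L-function of `E` over `K` (definitions of the starting file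
`Pool.Agent.Results.MP_fb225e_nt.DerivativesDensityAbelian`) and `Λ_t = e^{t D²} Λ` (`D = d/ds`) the heat flow.
The Riemann hypothesis for `L(E/K, s)` says that for all `t > 0` all zeros of `Λ_t` are on the line `Re s = 1`.

We prove, without any hypothesis: there are constants `c, C > 0` such that for `0 < t ≤ 1/8`, `T ≥ 2` at most
the proportion `C exp (-c t log² T)` of the zeros of `Λ_t` with imaginary part in `(T, 2T]` are off the line
`Re s = 1` or multiple, and their number is at most `C exp (-c t log² T) T log T`.  For `t > 0` the function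
`Λ_t` is not a product over the characters of `K` (the degree of `Λ` is `2 [K : ℚ] ≤ 10`).

Proof.  The twists of the newform of `E` satisfy the axioms `GG` of project GD2 (`Pool.Agent.Y671.GL`,
`Pool.Agent.Y693.GL.Twf`), which are stable under products (`Pool.Agent.Y693.GL.Mul`); the theorem on the heat
flow of functions with these axioms (`Pool.Agent.Y671.GL.hdx_all`, degree at most 10) needs in addition that
there are no exceptional zeros at `s` with `t log |s|` large, which is a theorem of the starting modules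
`Pool.Agent.TH839.UH`.
-/

set_option autoImplicit false

open Complex UpperHalfPlane MatrixGroups CongruenceSubgroup
open scoped ComplexConjugate

namespace Pool.Agent.Results.MP_fb225e_nt.HeatFlowDensity

open Pool.Agent.Results.MP_fb225e_nt.DerivativesDensityAbelian (coef IsFormOf twist IsCompleted)

/-- The heat flow `Λ_t = e^{t D²} Λ` (`D = d/ds`) as a Gaussian average:
`Λ_t(s) = π^(-1/2) ∫ exp (-v²) Λ(s + 2 √t v) dv`. -/
noncomputable def heat (t : ℝ) (Λ : ℂ → ℂ) (s : ℂ) : ℂ :=
  ((1 / Real.sqrt Real.pi : ℝ) : ℂ) *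
    ∫ v : ℝ, ((Real.exp (-v ^ 2) : ℝ) : ℂ) * Λ (s + ((2 * Real.sqrt t * v : ℝ) : ℂ))

/-- The zeros of `Λ_t` with imaginary part in `(T, 2T]`. -/
def Zer (Λ : ℂ → ℂ) (t T : ℝ) : Set ℂ := {s | heat t Λ s = 0 ∧ T < s.im ∧ s.im ≤ 2 * T}

/-- The exceptional ones: off the line `Re s = 1`, or multiple. -/
def Exc (Λ : ℂ → ℂ) (t T : ℝ) : Set ℂ := {s | s ∈ Zer Λ t T ∧ (s.re ≠ 1 ∨ deriv (heat t Λ) s = 0)}

/-- The number of points of `A`, each counted with its multiplicity as a zero of `Λ_t`. -/
noncomputable def num (Λ : ℂ → ℂ) (t : ℝ) (A : Set ℂ) : ℕ := ∑ᶠ s ∈ A, analyticOrderNatAt (heat t Λ) s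

/-- **Main theorem.**  Let `E : y² = x³ + a x + b` be an elliptic curve over `ℚ` with newform `f` of level
`N`, and let `K` be an abelian number field of degree at most five and of conductor prime to `N`, given by its
group `G` of Dirichlet characters modulo `M`.  Then `Λ(E/K, s)` exists, is unique, has a functional equation,
and there are `c, C > 0` such that for `0 < t ≤ 1/8` and `T ≥ 2` at most the proportion `C exp (-c t log² T)` of
the zeros of `Λ_t` with imaginary part in `(T, 2T]`, counted with multiplicity, are off the line `Re s = 1` or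
multiple; and the number of these exceptional zeros is at most `C exp (-c t log² T) T log T`. -/
theorem result : ∀ (a b : ℤ) (N : ℕ) [NeZero N] (f : CuspForm (Gamma0 N : Subgroup (GL (Fin 2) ℝ)) 2) (w : ℝ),
    4 * a ^ 3 + 27 * b ^ 2 ≠ 0 → IsFormOf a b N f w →
    ∀ (M : ℕ) [NeZero M] (G : Subgroup (DirichletCharacter ℂ M)) [Fintype G], Nat.Coprime M N →
    Fintype.card G ≤ 5 →
    ∃ Λ : ℂ → ℂ, IsCompleted G f Λ ∧ (∀ Λ' : ℂ → ℂ, IsCompleted G f Λ' → Λ' = Λ) ∧
      (∃ W : ℂ, ‖W‖ = 1 ∧ ∀ s : ℂ, Λ (2 - s) = W * conj (Λ (conj s))) ∧ heat 0 Λ = Λ ∧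
      (∀ t T : ℝ, 0 ≤ t → (Zer Λ t T).Finite) ∧
      ∃ c C : ℝ, 0 < c ∧ 0 < C ∧ ∀ t T : ℝ, 0 < t → t ≤ 1 / 8 → 2 ≤ T →
        (num Λ t (Exc Λ t T) : ℝ) ≤ C * Real.exp (-(c * t * Real.log T ^ 2)) * num Λ t (Zer Λ t T) ∧
        (num Λ t (Exc Λ t T) : ℝ) ≤ C * Real.exp (-(c * t * Real.log T ^ 2)) * T * Real.log T := by
  obtain ⟨C0, hC0, -, H2⟩ := Pool.Agent.TH839.UH.flow_all
  intro a b N _ f w _ hf M _ G _ hco h5
  have hf' : Pool.Agent.W169.HF.IsForm N f w :=
    { one := hf.one
      real := hf.real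
      mul := hf.mul
      pow := hf.pow
      sign := hf.sign
      fricke := hf.fricke
      good := hf.good
      bad := fun p hp hpN => by
        have h1 : (1 : ℝ) ≤ Real.sqrt p := by
          rw [Real.one_le_sqrt]
          exact_mod_cast hp.one_le
        have h2 : ‖coef f p‖ ≤ 1 := by
          rcases hf.bad p hp hpN with h | h | h <;> simp [h]
        exact h2.trans h1 }
  obtain ⟨Λ, h1, h2, h3, h4⟩ := H2 N f w M G hf' hco
  obtain ⟨h6, h7, h8⟩ := Pool.Agent.Q9.RH.heat_ab G hC0 h5 hf' hco h1 h2 h4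
  exact ⟨Λ, ⟨h1, h2⟩, fun Λ' h' => Pool.Agent.W355.UN.Pk.uniq h1 h'.1 h2 h'.2, h3, h6, h7, h8⟩

end Pool.Agent.Results.MP_fb225e_nt.HeatFlowDensity
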