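import Pool.Agent.Results.MP_fb225e_nt.DerivativesDensityAbelian
import Pool.Agent.Q9.RH.Fin

/-!
# `|Λ(E/K, s)|` increases away from the line `Re s = 1` at almost all heights

`E : y² = x³ + a x + b` is an elliptic curve over `ℚ` of conductor `N` and `K` an abelian number field of
conductor prime to `N`, given by its group `G` of Dirichlet characters; `Λ(s) = Λ(E/K, s)` is the completed
L-function of `E` over `K` (definitions of the starting file
`Pool.Agent.Results.MP_fb225e_nt.DerivativesDensityAbelian`).

The Riemann hypothesis for `L(E/K, s)` holds if and only if for every real `t` the function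
`x ↦ |Λ(1 + x + i t)|` is strictly increasing on `x ≥ 0` (part of the result).  We prove, without any
hypothesis and for EVERY `c < 1`: for all `r ≥ 0` and `T ≥ 2` the heights `t` in `[0, T]` at which it is not
strictly increasing on `x ≥ r / log T` form a set of measure at most `C e^(-c r) T`.

Proof.  A zero `1 + β + i γ` of `Λ`, `β ≠ 0`, disturbs the growth only at the heights `t` with `|t - γ| < |β|`: a
function with `Φ(-conj z) = conj Φ(z)` and zeros in a vertical strip is approximated by polynomials which have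
the same symmetry and whose zeros are zeros of `Φ` or lie on the imaginary axis (Hadamard), and for a pair of
symmetric linear factors the claim is elementary (`Pool.Agent.Y22.LM1`).  The zeros with `|β| ≥ r / log T` are
few by the log-free density theorem for `L(E/K, s)` with every exponent `c < 1` (`Pool.Agent.Q9.RH.Tw`).
-/

set_option autoImplicit false

open Complex UpperHalfPlane MatrixGroups CongruenceSubgroup
open scoped ComplexConjugate

namespace Pool.Agent.Results.MP_fb225e_nt.HorizontalGrowth

open Pool.Agent.Results.MP_fb225e_nt.DerivativesDensityAbelian (coef IsFormOf twist IsCompleted)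

/-- The heights `t` in `[0, T]` at which `x ↦ |Λ(1 + x + i t)|` is not strictly increasing on the half-line
`x ≥ h`. -/
def Exceptional (Λ : ℂ → ℂ) (h T : ℝ) : Set ℝ :=
  {t : ℝ | 0 ≤ t ∧ t ≤ T ∧ ¬ StrictMonoOn (fun x : ℝ => ‖Λ (1 + x + t * Complex.I)‖) (Set.Ici h)}

/-- **Main theorem.**  Let `E : y² = x³ + a x + b` be an elliptic curve over `ℚ` with newform `f` of level
`N`, and let `K` be an abelian number field of conductor prime to `N`, given by its group `G` of Dirichlet
characters modulo `M`.  Then `Λ(E/K, s)` exists and is unique; all its zeros are on the line `Re s = 1` if and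
only if it has no exceptional heights (`h = 0`); and for every `c < 1` there is `C > 0` such that for all
`r ≥ 0` and `T ≥ 2` the exceptional heights for `h = r / log T` in `[0, T]` have the Lebesgue (outer) measure
at most `C e^(-c r) T`. -/
theorem result : ∀ (a b : ℤ) (N : ℕ) [NeZero N] (f : CuspForm (Gamma0 N : Subgroup (GL (Fin 2) ℝ)) 2) (w : ℝ),
    4 * a ^ 3 + 27 * b ^ 2 ≠ 0 → IsFormOf a b N f w →
    ∀ (M : ℕ) [NeZero M] (G : Subgroup (DirichletCharacter ℂ M)) [Fintype G], Nat.Coprime M N →
    ∃ Λ : ℂ → ℂ, IsCompleted G f Λ ∧ (∀ Λ' : ℂ → ℂ, IsCompleted G f Λ' → Λ' = Λ) ∧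
      (∃ W : ℂ, ‖W‖ = 1 ∧ ∀ s : ℂ, Λ (2 - s) = W * conj (Λ (conj s))) ∧
      ((∀ s : ℂ, Λ s = 0 → s.re = 1) ↔
        ∀ t : ℝ, StrictMonoOn (fun x : ℝ => ‖Λ (1 + x + t * Complex.I)‖) (Set.Ici 0)) ∧
      ∀ c : ℝ, c < 1 → ∃ C : ℝ, 0 < C ∧ ∀ r T : ℝ, 0 ≤ r → 2 ≤ T →
        MeasureTheory.volume (Exceptional Λ (r / Real.log T) T) ≤
          ENNReal.ofReal (C * Real.exp (-(c * r)) * T) := by
  obtain ⟨C, hC, -, H2⟩ := Pool.Agent.TH839.UH.flow_all
  intro a b N _ f w _ hf M _ G _ hco
  have hf' : Pool.Agent.W169.HF.IsForm N f w :=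
    { one := hf.one
      real := hf.real
      mul := hf.mul
      pow := hf.pow
      sign := hf.sign
      fricke := hf.fricke
      good := hf.good
      bad := fun p hp hpN => by
        have h1 : (1 : ℝ) ≤ Real.sqrt p := by
          rw [Real.one_le_sqrt]
          exact_mod_cast hp.one_le
        have h2 : ‖coef f p‖ ≤ 1 := by
          rcases hf.bad p hp hpN with h | h | h <;> simp [h]
        exact h2.trans h1 }
  obtain ⟨Λ, h1, h2, h3, -⟩ := H2 N f w M G hf' hco
  have h5 := Pool.Agent.Q9.RH.res_ab G hf' hco h1 h2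
  exact ⟨Λ, ⟨h1, h2⟩, fun Λ' h' => Pool.Agent.W355.UN.Pk.uniq h1 h'.1 h2 h'.2, h3, h5.rh, fun c hc => h5.grow c hc⟩

end Pool.Agent.Results.MP_fb225e_nt.HorizontalGrowth
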