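import Pool.Agent.Results.MP_fb225e_nt.JensenRayClassFields
import Pool.Agent.Q9.RH.WEm

/-!
# Multiple positivity of the Taylor coefficients of `Λ(E/K, s)` for the ray class fields `K` of `ℚ(i)`

`E : y² = x³ - D x`, and `K` is a ray class field of `ℚ(i)` whose modulus is divisible by `2 + 2i` and which
contains a fourth root of `D` (definitions of the starting file
`Pool.Agent.Results.MP_fb225e_nt.JensenRayClassFields`); the degree of `K` is unbounded.  Let
`Λ(1 + z) = G(z²)`, where `Λ` is the completed L-function of `E/K` (even around the central point).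

By Aissen, Edrei, Schoenberg and Whitney the Riemann hypothesis for `L(E/K, s)` holds if and only if all minors
of the Toeplitz matrix of the Taylor coefficients of `G` are nonnegative.  We prove that there is a constant
`C` such that for all orders `m` and all `n ≥ C log (m + 1)` all minors of order `m` of the Toeplitz matrix of
the Taylor coefficients of the `n`-th derivative of `G` are nonnegative, and that the Riemann hypothesis for
`L(E/K, s)` holds if and only if the remaining minors, `n < C log (m + 1)`, are nonnegative.  Nothing is assumed.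
-/

set_option autoImplicit false

open Complex NumberField IsDedekindDomain
open scoped ComplexConjugate

namespace Pool.Agent.Results.MP_fb225e_nt.MultiplePositivity

open Pool.Agent.Results.MP_fb225e_nt.JensenRayClassFields (IsRayClassField Possible exceptional IsL
  IsCompletion EulerQuot gamma conv)

/-- The `k`-th Taylor coefficient of the `n`-th derivative of `G`, where `Λ(1 + z) = G(z²)`, that is
`G(x) = ∑ γ(k) x^k / k!`. -/
noncomputable def coef (Λ : ℂ → ℂ) (n k : ℕ) : ℝ := gamma Λ (n + k) / (k.factorial : ℝ)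

/-- The upper triangular Toeplitz matrix of these coefficients (row `i`, column `j`). -/
noncomputable def T (Λ : ℂ → ℂ) (n i j : ℕ) : ℝ := if i ≤ j then coef Λ n (j - i) else 0

/-- All minors of order `m` of the infinite matrix `T Λ n` are nonnegative. -/
def NonnegMinors (Λ : ℂ → ℂ) (n m : ℕ) : Prop := ∀ a b : Fin m → ℕ, StrictMono a → StrictMono b →
  0 ≤ (Matrix.of fun p q => T Λ n (a p) (b q)).det

/-- **Main theorem.**  Here `2 * Nat.card art.range = 2 [K : ℚ(i)] = [K : ℚ]`. -/
theorem result (q : GaussianInt) (hq : q ≠ 0) (h2 : (⟨2, 2⟩ : GaussianInt) ∣ q)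
    (K : Type) [Field K] [NumberField K] (ι : GaussianInt →+* 𝓞 K)
    (art : (GaussianInt ⧸ Ideal.span {q})ˣ →* (𝓞 K ≃+* 𝓞 K)) (hK : IsRayClassField q K ι art)
    (D : ℤ) (hD : D ≠ 0) (hd : ∃ d : 𝓞 K, d ^ 4 = (D : 𝓞 K))
    (a ε : HeightOneSpectrum (𝓞 K) → ℤ)
    (hpos : ∀ v ∈ exceptional q ι D, Possible (Ideal.absNorm v.asIdeal) (a v) (ε v)) :
    (exceptional q ι D).Finite ∧ ∃ L Λ : ℂ → ℂ, IsL q ι D a ε L ∧
      IsCompletion (2 * Nat.card art.range) L Λ ∧
      ∃ C : ℝ, 0 < C ∧
        (∀ m n : ℕ, C * Real.log (m + 1) ≤ n → NonnegMinors Λ n m) ∧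
        ((∀ s : ℂ, 1 / 2 < s.re → L s = 0 → s.re = 1) ↔
          ∀ m n : ℕ, (n : ℝ) < C * Real.log (m + 1) → NonnegMinors Λ n m) := by
  choose cd pr hp using H385.prim_exists
  classical
  have hprim : ∀ q : GaussianInt, q ≠ 0 → ∀ χ ∈ H385.FQs q,
      (if h : q ≠ 0 ∧ H385.chiZ q χ H385.im1 = -I then cd q h.1 χ h.2 else 1) ∣ q ∧
      Pool.Agent.H304R3.HK.HC
        (if h : q ≠ 0 ∧ H385.chiZ q χ H385.im1 = -I then cd q h.1 χ h.2 else 1)
        (if h : q ≠ 0 ∧ H385.chiZ q χ H385.im1 = -I then pr q h.1 χ h.2 else 1) ∧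
      ∀ a : GaussianInt, IsCoprime a q →
        (if h : q ≠ 0 ∧ H385.chiZ q χ H385.im1 = -I then pr q h.1 χ h.2 else 1) a =
          H385.chiZ q χ a := by
    intro q hq χ hχ
    have h := ((H385.fq_finite q hq).2.2 χ).1 hχ
    rw [dif_pos ⟨hq, h⟩, dif_pos ⟨hq, h⟩]
    exact hp q hq χ h
  obtain ⟨hfin, L, Λ, B, A, hA, hL, hprod, hΛ, hfe, hreal, hBq, hB, hB0, hkey, hJ⟩ :=
    Pool.Agent.Q9.RH.WEm.mainM _ _ hprim hq h2 K ι art
      ⟨hK.invariants, hK.kernel, hK.unramified, hK.frobenius⟩ hD hd a ε hpos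
  obtain ⟨C, hC, h3, h4⟩ := hJ
  exact ⟨hfin, L, Λ, ⟨hL, hprod⟩, ⟨hΛ, hfe, hreal, A, B, hA, conv hBq, hB, hB0, hkey⟩, C, hC, h3, h4⟩

end Pool.Agent.Results.MP_fb225e_nt.MultiplePositivity
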