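import Pool.Agent.Results.MP_fb225e_nt.DerivativesDensityAbelian
import Pool.Agent.Q9.RH.Fin

/-!
# A log-free density theorem for the zeros of `L(E/K, s)` off the line `Re s = 1`, `K` abelian

`E : y² = x³ + a x + b` is an elliptic curve over `ℚ` of conductor `N` and `K` an abelian number field of
conductor prime to `N`, given by its group `G` of Dirichlet characters; `Λ(s) = Λ(E/K, s)` is the completed
L-function of `E` over `K` (definitions of the starting file
`Pool.Agent.Results.MP_fb225e_nt.DerivativesDensityAbelian`).  The Riemann hypothesis for `L(E/K, s)` says that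
all zeros of `Λ` are on the line `Re s = 1`.

We prove, without any hypothesis and for EVERY `c < 1`: the number of zeros of `Λ` with imaginary part in
`(0, T]` and at distance at least `δ` from the line, counted with multiplicity, is at most
`C T ^ (1 - c δ) log T`, uniformly for `δ ≥ 0` and `T ≥ 2`.

Proof.  `Λ` is the product over the characters `χ` of `K` of the completed L-functions of the twists `f ⊗ χ` of
the newform of `E`.  The twists satisfy the axioms of the mollified second moment (project GD2,
`Pool.Agent.Y671.GL`, `Pool.Agent.Y693.GL.Twf`: shifted convolution sums by Jutila's circle method) and hence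
those of the density theorem `Pool.Agent.Y24.GL` (mollifiers of length `T ^ κ`, every `κ < 1`); the
coefficients are no longer real, and the growth in the lower half-plane comes from the conjugate twist
(`Pool.Agent.Q9.RH.Tw`).
-/

set_option autoImplicit false

open Complex UpperHalfPlane MatrixGroups CongruenceSubgroup
open scoped ComplexConjugate

namespace Pool.Agent.Results.MP_fb225e_nt.ZeroDensityAbelian

open Pool.Agent.Results.MP_fb225e_nt.DerivativesDensityAbelian (coef IsFormOf twist IsCompleted)

/-- The zeros of `Λ` with imaginary part in `(0, T]` and distance at least `δ` from the line `Re s = 1`. -/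
def Off (Λ : ℂ → ℂ) (δ T : ℝ) : Set ℂ := {s | Λ s = 0 ∧ δ ≤ |s.re - 1| ∧ 0 < s.im ∧ s.im ≤ T}

/-- The number of points of `A`, each counted with its multiplicity as a zero of `Λ`. -/
noncomputable def num (Λ : ℂ → ℂ) (A : Set ℂ) : ℕ := ∑ᶠ s ∈ A, analyticOrderNatAt Λ s

/-- **Main theorem.**  Let `E : y² = x³ + a x + b` be an elliptic curve over `ℚ` with newform `f` of level
`N`, and let `K` be an abelian number field of conductor prime to `N`, given by its group `G` of Dirichlet
characters modulo `M`.  Then `Λ(E/K, s)` exists, is unique, has a functional equation, and for every `c < 1`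
there is `C > 0` such that for all `δ ≥ 0` and `T ≥ 2` at most `C T ^ (1 - c δ) log T` of its zeros with
imaginary part in `(0, T]`, counted with multiplicity, have a distance of at least `δ` from `Re s = 1`. -/
theorem result : ∀ (a b : ℤ) (N : ℕ) [NeZero N] (f : CuspForm (Gamma0 N : Subgroup (GL (Fin 2) ℝ)) 2) (w : ℝ),
    4 * a ^ 3 + 27 * b ^ 2 ≠ 0 → IsFormOf a b N f w →
    ∀ (M : ℕ) [NeZero M] (G : Subgroup (DirichletCharacter ℂ M)) [Fintype G], Nat.Coprime M N →
    ∃ Λ : ℂ → ℂ, IsCompleted G f Λ ∧ (∀ Λ' : ℂ → ℂ, IsCompleted G f Λ' → Λ' = Λ) ∧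
      (∃ W : ℂ, ‖W‖ = 1 ∧ ∀ s : ℂ, Λ (2 - s) = W * conj (Λ (conj s))) ∧
      ∀ c : ℝ, c < 1 → ∃ C : ℝ, 0 < C ∧ ∀ δ T : ℝ, 0 ≤ δ → 2 ≤ T →
        (Off Λ δ T).Finite ∧ (num Λ (Off Λ δ T) : ℝ) ≤ C * T ^ (1 - c * δ) * Real.log T := by
  obtain ⟨C, hC, -, H2⟩ := Pool.Agent.TH839.UH.flow_all
  intro a b N _ f w _ hf M _ G _ hco
  have hf' : Pool.Agent.W169.HF.IsForm N f w :=
    { one := hf.one
      real := hf.real
      mul := hf.mul
      pow := hf.pow
      sign := hf.sign
      fricke := hf.fricke
      good := hf.good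
      bad := fun p hp hpN => by
        have h1 : (1 : ℝ) ≤ Real.sqrt p := by
          rw [Real.one_le_sqrt]
          exact_mod_cast hp.one_le
        have h2 : ‖coef f p‖ ≤ 1 := by
          rcases hf.bad p hp hpN with h | h | h <;> simp [h]
        exact h2.trans h1 }
  obtain ⟨Λ, h1, h2, h3, -⟩ := H2 N f w M G hf' hco
  have h5 := Pool.Agent.Q9.RH.res_ab G hf' hco h1 h2
  exact ⟨Λ, ⟨h1, h2⟩, fun Λ' h' => Pool.Agent.W355.UN.Pk.uniq h1 h'.1 h2 h'.2, h3, fun c hc => by
    obtain ⟨C, hC, h6⟩ := h5.dens c hc
    exact ⟨C, hC, fun δ T hδ hT => ⟨h5.fin δ T, h6 δ T hδ hT⟩⟩⟩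

end Pool.Agent.Results.MP_fb225e_nt.ZeroDensityAbelian
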